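import Mathlib

/-!
# Weak rainbow saturation numbers of cliques

We prove `rwsat(n, K_r) ≤ (r - 1) n + C(r)` for every `r ≥ 3` and every `n`.
-/

namespace Pool.Agent.Results.MP_d10f6f_co.LinearUpper

open Finset

/-- `InRainbowClique r E col e`: the edge `e` lies in a rainbow copy of `K_r` in the graph with
edge set `E`, coloured by `col`: there is a set `W` of `r` vertices which contains the endpoints
of `e`, all pairs of distinct vertices of `W` are in `E`, and different pairs have different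
colours. -/
def InRainbowClique {V : Type*} (r : ℕ) (E : Set (Sym2 V)) (col : Sym2 V → ℕ) (e : Sym2 V) :
    Prop :=
  ∃ W : Finset V, W.card = r ∧ (∀ x ∈ e, x ∈ W) ∧
    (∀ x ∈ W, ∀ y ∈ W, x ≠ y → s(x, y) ∈ E) ∧
    (∀ x ∈ W, ∀ y ∈ W, ∀ x' ∈ W, ∀ y' ∈ W, x ≠ y → x' ≠ y' →
      col s(x, y) = col s(x', y') → s(x, y) = s(x', y'))

/-- `(G, χ)` is weakly `K_r`-rainbow saturated: there is an ordering `l` of the edges of `K_n`
that are not in `G` such that, whatever pairwise distinct colours `c` the added edges receive,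
each added edge `l i` lies in a rainbow copy of `K_r` in the graph `G` together with the edges
`l j`, `j ≤ i`, where `l j` has colour `c j` and an edge of `G` has its colour under `χ`
(the values of `χ` on pairs outside `G` are irrelevant). -/
def WeaklySaturated {n : ℕ} (r : ℕ) (G : SimpleGraph (Fin n)) (χ : Sym2 (Fin n) → ℕ) : Prop :=
  ∃ l : List (Sym2 (Fin n)), l.Nodup ∧ (∀ e, e ∈ l ↔ (¬ e.IsDiag ∧ e ∉ G.edgeSet)) ∧
    ∀ c : Fin l.length → ℕ, Function.Injective c → ∀ i : Fin l.length,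
      InRainbowClique r (G.edgeSet ∪ {e | ∃ j, j ≤ i ∧ l.get j = e})
        (Function.extend l.get c χ) (l.get i)

/-- The weak rainbow saturation number `rwsat(n, K_r)`: the minimum number of edges of a weakly
`K_r`-rainbow saturated edge-coloured subgraph of `K_n`. -/
noncomputable def rwsat (n r : ℕ) : ℕ :=
  sInf {k | ∃ (G : SimpleGraph (Fin n)) (χ : Sym2 (Fin n) → ℕ),
    WeaklySaturated r G χ ∧ G.edgeSet.ncard = k}

theorem InRainbowClique.mono {V : Type*} {r : ℕ} {E E' : Set (Sym2 V)} {col : Sym2 V → ℕ}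
    {e : Sym2 V} (h : InRainbowClique r E col e) (hE : E ⊆ E') :
    InRainbowClique r E' col e := by
  obtain ⟨W, h1, h2, h3, h4⟩ := h
  exact ⟨W, h1, h2, fun x hx y hy hxy => hE (h3 x hx y hy hxy), h4⟩

section Construction

variable {V : Type*} [Fintype V] [DecidableEq V] {s M : ℕ}

/-- The index type of the core. -/
abbrev Idx (s M : ℕ) := Fin (s + 1) ⊕ (Fin s × ZMod M)

/-- The graph: the core is complete, and every vertex is joined to the `s + 1` vertices `A`. -/
def gr (φ : Idx s M → V) : SimpleGraph V where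
  Adj x y := x ≠ y ∧ (((∃ z, φ z = x) ∧ ∃ z, φ z = y) ∨ (∃ a, φ (Sum.inl a) = x) ∨
    ∃ a, φ (Sum.inl a) = y)
  symm := ⟨fun x y h => ⟨h.1.symm, by
    rcases h.2 with h | h | h
    · exact Or.inl ⟨h.2, h.1⟩
    · exact Or.inr (Or.inr h)
    · exact Or.inr (Or.inl h)⟩⟩
  loopless := ⟨fun x h => h.1 rfl⟩

theorem phase1 (φ : Idx s M → V) (hφ : Function.Injective φ) (v w : V)
    (hv : ∀ z, φ z ≠ v) (hw : ∃ p, φ (Sum.inr p) = w) (col : Sym2 V → ℕ)
    (hG : ∀ e ∈ (gr φ).edgeSet, ∀ e' ∈ (gr φ).edgeSet, col e = col e' → e = e') :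
    InRainbowClique (s + 2) ((gr φ).edgeSet ∪ {s(v, w)}) col s(v, w) := by
  classical
  obtain ⟨p, rfl⟩ := hw
  have hvw : v ≠ φ (Sum.inr p) := fun h => hv _ h.symm
  -- choice of the vertex to drop
  obtain ⟨a0, ha0⟩ : ∃ a0 : Fin (s + 1), ∀ f ∈ (gr φ).edgeSet,
      col f = col s(v, φ (Sum.inr p)) → (∃ a, φ (Sum.inl a) ∈ f) → φ (Sum.inl a0) ∈ f := by
    by_cases h : ∃ f ∈ (gr φ).edgeSet, col f = col s(v, φ (Sum.inr p)) ∧
        ∃ a, φ (Sum.inl a) ∈ f
    · obtain ⟨f, hf, hfc, a, ha⟩ := h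
      refine ⟨a, fun f' hf' hc' _ => ?_⟩
      rw [hG f' hf' f hf (hc'.trans hfc.symm)]
      exact ha
    · exact ⟨0, fun f hf hc ha => absurd ⟨f, hf, hc, ha⟩ h⟩
  set W : Finset V := insert v (insert (φ (Sum.inr p))
    ((univ.erase a0).image (fun a => φ (Sum.inl a)))) with hW
  have hmemW : ∀ x, x ∈ W ↔ x = v ∨ x = φ (Sum.inr p) ∨ ∃ a, a ≠ a0 ∧ φ (Sum.inl a) = x := by
    intro x
    simp [hW]
  have hinl : ∀ a a', φ (Sum.inl a) = φ (Sum.inl a') → a = a' := by
    intro a a' h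
    exact Sum.inl.inj (hφ h)
  have ha0W : φ (Sum.inl a0) ∉ W := by
    rw [hmemW]
    rintro (h | h | ⟨a, ha, h⟩)
    · exact hv _ h
    · exact absurd (hφ h) (by simp)
    · exact ha (hinl _ _ h)
  have hpair : ∀ x ∈ W, ∀ y ∈ W, x ≠ y → s(x, y) = s(v, φ (Sum.inr p)) ∨
      (s(x, y) ∈ (gr φ).edgeSet ∧ ∃ a, φ (Sum.inl a) ∈ s(x, y)) := by
    intro x hx y hy hxy
    rw [hmemW] at hx hy
    rcases hx with rfl | rfl | ⟨a, ha, rfl⟩
    · rcases hy with rfl | rfl | ⟨b, hb, rfl⟩
      · exact absurd rfl hxy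
      · exact Or.inl rfl
      · exact Or.inr ⟨⟨hxy, Or.inr (Or.inr ⟨b, rfl⟩)⟩, b, Sym2.mem_mk_right _ _⟩
    · rcases hy with rfl | rfl | ⟨b, hb, rfl⟩
      · exact Or.inl Sym2.eq_swap
      · exact absurd rfl hxy
      · exact Or.inr ⟨⟨hxy, Or.inr (Or.inr ⟨b, rfl⟩)⟩, b, Sym2.mem_mk_right _ _⟩
    · exact Or.inr ⟨⟨hxy, Or.inr (Or.inl ⟨a, rfl⟩)⟩, a, Sym2.mem_mk_left _ _⟩
  have hnot : ∀ x ∈ W, ∀ y ∈ W, s(x, y) ∈ (gr φ).edgeSet → (∃ a, φ (Sum.inl a) ∈ s(x, y)) →
      col s(x, y) ≠ col s(v, φ (Sum.inr p)) := by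
    intro x hx y hy he hA hc
    have := ha0 _ he hc hA
    rcases Sym2.mem_iff.1 this with h | h
    · exact ha0W (h ▸ hx)
    · exact ha0W (h ▸ hy)
  refine ⟨W, ?_, ?_, ?_, ?_⟩
  · have hc1 : ((univ.erase a0).image (fun a => φ (Sum.inl a))).card = s := by
      rw [card_image_of_injective _ (fun a a' h => hinl _ _ h)]
      simp
    rw [hW, card_insert_of_notMem, card_insert_of_notMem, hc1]
    · simp only [mem_image, mem_erase, mem_univ, and_true, not_exists, not_and]
      intro a _ h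
      exact absurd (hφ h) (by simp)
    · simp only [mem_insert, mem_image, mem_erase, mem_univ, and_true, not_or, not_exists,
        not_and]
      exact ⟨hvw, fun a _ h => hv _ h⟩
  · intro x hx
    rw [hmemW]
    rcases Sym2.mem_iff.1 hx with h | h
    · exact Or.inl h
    · exact Or.inr (Or.inl h)
  · intro x hx y hy hxy
    rcases hpair x hx y hy hxy with h | h
    · exact Or.inr h
    · exact Or.inl h.1
  · intro x hx y hy x' hx' y' hy' hxy hxy' hc
    rcases hpair x hx y hy hxy with h | h <;> rcases hpair x' hx' y' hy' hxy' with h' | h'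
    · rw [h, h']
    · rw [h] at hc
      exact absurd hc.symm (hnot x' hx' y' hy' h'.1 h'.2)
    · rw [h'] at hc
      exact absurd hc (hnot x hx y hy h.1 h.2)
    · exact hG _ h.1 _ h'.1 hc

theorem phase2 (φ : Idx s M → V) (hφ : Function.Injective φ) [Fact M.Prime] (hM : 2 * s + 2 ≤ M)
    (v v' : V) (hvv : v ≠ v')
    (hv : ∀ z, φ z ≠ v) (hv' : ∀ z, φ z ≠ v') (col : Sym2 V → ℕ)
    (hG : ∀ e ∈ (gr φ).edgeSet, ∀ e' ∈ (gr φ).edgeSet, col e = col e' → e = e')
    (T : Finset (Sym2 V))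
    (hT : ∀ e, e ∈ T ↔ e = s(v, v') ∨ (∃ p, e = s(v, φ (Sum.inr p))) ∨
      ∃ p, e = s(v', φ (Sum.inr p)))
    (hTinj : ∀ e ∈ T, ∀ e' ∈ T, col e = col e' → e = e') :
    InRainbowClique (s + 2) ((gr φ).edgeSet ∪ T) col s(v, v') := by
  classical
  have hinr : ∀ a a', φ (Sum.inr a) = φ (Sum.inr a') → a = a' := by
    intro a a' h
    exact Sum.inr.inj (hφ h)
  -- the points of the line `(a, b)`
  let pt : ZMod M × ZMod M → Fin s → V :=
    fun q t => φ (Sum.inr (t, q.1 + q.2 * ((t : ℕ) : ZMod M)))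
  have hptinj : ∀ q, Function.Injective (pt q) := by
    intro q t t' h
    have := hinr _ _ h
    exact (Prod.ext_iff.1 this).1
  have hcast : ∀ t t' : Fin s, ((t : ℕ) : ZMod M) = ((t' : ℕ) : ZMod M) → t = t' := by
    intro t t' h
    rw [ZMod.natCast_eq_natCast_iff] at h
    have := Nat.ModEq.eq_of_lt_of_lt h (by omega) (by omega)
    exact Fin.ext this
  have hline : ∀ q q' : ZMod M × ZMod M, ∀ t t' : Fin s, t ≠ t' →
      q.1 + q.2 * ((t : ℕ) : ZMod M) = q'.1 + q'.2 * ((t : ℕ) : ZMod M) →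
      q.1 + q.2 * ((t' : ℕ) : ZMod M) = q'.1 + q'.2 * ((t' : ℕ) : ZMod M) → q = q' := by
    intro q q' t t' htt h1 h2
    have h3 : (q.2 - q'.2) * (((t : ℕ) : ZMod M) - ((t' : ℕ) : ZMod M)) = 0 := by
      linear_combination h1 - h2
    rcases mul_eq_zero.1 h3 with h | h
    · have h4 : q.2 = q'.2 := sub_eq_zero.1 h
      rw [h4] at h1
      exact Prod.ext (add_right_cancel h1) h4
    · exact absurd (hcast _ _ (sub_eq_zero.1 h)) htt
  have hcore : ∀ q t t', t ≠ t' → s(pt q t, pt q t') ∈ (gr φ).edgeSet := by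
    intro q t t' htt
    exact ⟨fun h => htt (hptinj q h), Or.inl ⟨⟨_, rfl⟩, ⟨_, rfl⟩⟩⟩
  -- a good line exists
  obtain ⟨q, hq⟩ : ∃ q : ZMod M × ZMod M, ∀ e ∈ T, ∀ t t', t ≠ t' →
      col e ≠ col s(pt q t, pt q t') := by
    by_contra hcon
    push Not at hcon
    choose g hgT t t' htt hgc using hcon
    have hginj : Function.Injective g := by
      intro q q' hqq
      have h1 : col s(pt q (t q), pt q (t' q)) = col s(pt q' (t q'), pt q' (t' q')) := by
        rw [← hgc q, ← hgc q', hqq]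
      have h2 := hG _ (hcore q _ _ (htt q)) _ (hcore q' _ _ (htt q')) h1
      rw [Sym2.eq_iff] at h2
      rcases h2 with ⟨h3, h4⟩ | ⟨h3, h4⟩
      · have h5 := hinr _ _ h3
        have h6 := hinr _ _ h4
        rw [Prod.mk.injEq] at h5 h6
        have h7 := h5.2
        have h8 := h6.2
        rw [← h5.1] at h7
        rw [← h6.1] at h8
        exact hline q q' (t q) (t' q) (htt q) h7 h8
      · have h5 := hinr _ _ h3
        have h6 := hinr _ _ h4
        rw [Prod.mk.injEq] at h5 h6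
        have h7 := h5.2
        have h8 := h6.2
        rw [← h5.1] at h7
        rw [← h6.1] at h8
        exact hline q q' (t q) (t' q) (htt q) h7 h8
    have hcard : (univ : Finset (ZMod M × ZMod M)).card ≤ T.card := by
      apply card_le_card_of_injOn g
      · intro q _
        exact hgT q
      · intro q _ q' _ h
        exact hginj h
    have hTsub : T ⊆ insert s(v, v')
        ((univ.image (fun p : Fin s × ZMod M => s(v, φ (Sum.inr p)))) ∪
          (univ.image (fun p : Fin s × ZMod M => s(v', φ (Sum.inr p))))) := by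
      intro e he
      rw [hT] at he
      simp only [mem_insert, mem_union, mem_image, mem_univ, true_and]
      rcases he with h | ⟨p, h⟩ | ⟨p, h⟩
      · exact Or.inl h
      · exact Or.inr (Or.inl ⟨p, h.symm⟩)
      · exact Or.inr (Or.inr ⟨p, h.symm⟩)
    have hTcard : T.card ≤ (s * M + s * M) + 1 := by
      refine (card_le_card hTsub).trans ((card_insert_le _ _).trans ?_)
      refine Nat.add_le_add_right ((card_union_le _ _).trans ?_) 1
      refine Nat.add_le_add ?_ ?_
      · refine card_image_le.trans ?_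
        simp [ZMod.card]
      · refine card_image_le.trans ?_
        simp [ZMod.card]
    have hcc : (univ : Finset (ZMod M × ZMod M)).card = M * M := by
      simp [ZMod.card]
    rw [hcc] at hcard
    nlinarith [hcard, hTcard, hM, Nat.mul_le_mul_right M hM]
  set W : Finset V := insert v (insert v' (univ.image (pt q))) with hW
  have hmemW : ∀ x, x ∈ W ↔ x = v ∨ x = v' ∨ ∃ t, pt q t = x := by
    intro x
    simp [hW]
  have hpair : ∀ x ∈ W, ∀ y ∈ W, x ≠ y → s(x, y) ∈ T ∨
      (∃ t t', t ≠ t' ∧ s(x, y) = s(pt q t, pt q t')) := by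
    intro x hx y hy hxy
    rw [hmemW] at hx hy
    rcases hx with rfl | rfl | ⟨a, rfl⟩
    · rcases hy with rfl | rfl | ⟨b, rfl⟩
      · exact absurd rfl hxy
      · exact Or.inl ((hT _).2 (Or.inl rfl))
      · exact Or.inl ((hT _).2 (Or.inr (Or.inl ⟨_, rfl⟩)))
    · rcases hy with rfl | rfl | ⟨b, rfl⟩
      · exact Or.inl ((hT _).2 (Or.inl Sym2.eq_swap))
      · exact absurd rfl hxy
      · exact Or.inl ((hT _).2 (Or.inr (Or.inr ⟨_, rfl⟩)))
    · rcases hy with rfl | rfl | ⟨b, rfl⟩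
      · exact Or.inl ((hT _).2 (Or.inr (Or.inl ⟨_, Sym2.eq_swap⟩)))
      · exact Or.inl ((hT _).2 (Or.inr (Or.inr ⟨_, Sym2.eq_swap⟩)))
      · exact Or.inr ⟨a, b, fun h => hxy (by rw [h]), rfl⟩
  refine ⟨W, ?_, ?_, ?_, ?_⟩
  · rw [hW, card_insert_of_notMem, card_insert_of_notMem, card_image_of_injective _ (hptinj q)]
    · simp
    · simp only [mem_image, mem_univ, true_and, not_exists]
      intro t h
      exact hv' _ h
    · simp only [mem_insert, mem_image, mem_univ, true_and, not_or, not_exists]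
      exact ⟨hvv, fun t h => hv _ h⟩
  · intro x hx
    rw [hmemW]
    rcases Sym2.mem_iff.1 hx with h | h
    · exact Or.inl h
    · exact Or.inr (Or.inl h)
  · intro x hx y hy hxy
    rcases hpair x hx y hy hxy with h | ⟨t, t', htt, h⟩
    · exact Or.inr h
    · rw [h]
      exact Or.inl (hcore q t t' htt)
  · intro x hx y hy x' hx' y' hy' hxy hxy' hc
    rcases hpair x hx y hy hxy with h | ⟨t, t', htt, h⟩ <;>
      rcases hpair x' hx' y' hy' hxy' with h' | ⟨u, u', huu, h'⟩
    · exact hTinj _ h _ h' hc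
    · rw [h'] at hc
      exact absurd hc (hq _ h u u' huu)
    · rw [h] at hc
      exact absurd hc.symm (hq _ h' t t' htt)
    · rw [h, h'] at hc ⊢
      exact hG _ (hcore q t t' htt) _ (hcore q u u' huu) hc

theorem card_edges (φ : Idx s M → V) [NeZero M] :
    (gr φ).edgeSet.ncard ≤ (s + 1) * Fintype.card V + Fintype.card (Idx s M) ^ 2 := by
  classical
  have hsub : (gr φ).edgeSet ⊆
      (((univ.image (fun q : Fin (s + 1) × V => s(φ (Sum.inl q.1), q.2))) ∪
        (univ.image (fun q : Idx s M × Idx s M => s(φ q.1, φ q.2))) : Finset (Sym2 V)) :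
          Set (Sym2 V)) := by
    intro e
    induction e using Sym2.ind with
    | _ x y =>
      intro he
      have h : (gr φ).Adj x y := he
      rw [mem_coe, mem_union, mem_image, mem_image]
      rcases h.2 with ⟨⟨z, hz⟩, ⟨z', hz'⟩⟩ | ⟨a, ha⟩ | ⟨a, ha⟩
      · exact Or.inr ⟨(z, z'), mem_univ _, by simp [hz, hz']⟩
      · exact Or.inl ⟨(a, y), mem_univ _, by simp [ha]⟩
      · exact Or.inl ⟨(a, x), mem_univ _, by simp [ha, Sym2.eq_swap]⟩
  refine (Set.ncard_le_ncard hsub (Finset.finite_toSet _)).trans ?_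
  rw [Set.ncard_coe_finset]
  refine (card_union_le _ _).trans (Nat.add_le_add ?_ ?_)
  · refine card_image_le.trans ?_
    simp
  · refine card_image_le.trans ?_
    rw [card_univ, Fintype.card_prod, sq]

end Construction

theorem weak_large {n s M : ℕ} [Fact M.Prime] (hM : 2 * s + 2 ≤ M)
    (φ : Idx s M → Fin n) (hφ : Function.Injective φ) :
    ∃ χ : Sym2 (Fin n) → ℕ, WeaklySaturated (s + 2) (gr φ) χ := by
  classical
  obtain ⟨χ, hχ⟩ := Countable.exists_injective_nat (Sym2 (Fin n))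
  refine ⟨χ, ?_⟩
  set P1 : Sym2 (Fin n) → Prop := fun e =>
    (¬ e.IsDiag ∧ e ∉ (gr φ).edgeSet) ∧ ∃ p, φ (Sum.inr p) ∈ e with hP1
  set P2 : Sym2 (Fin n) → Prop := fun e =>
    (¬ e.IsDiag ∧ e ∉ (gr φ).edgeSet) ∧ ¬ ∃ p, φ (Sum.inr p) ∈ e with hP2
  set L1 : List (Sym2 (Fin n)) := (univ.filter P1).toList with hL1
  set L2 : List (Sym2 (Fin n)) := (univ.filter P2).toList with hL2
  have hm1 : ∀ e, e ∈ L1 ↔ P1 e := by intro e; simp [hL1]
  have hm2 : ∀ e, e ∈ L2 ↔ P2 e := by intro e; simp [hL2]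
  have hnd : (L1 ++ L2).Nodup := by
    rw [List.nodup_append']
    refine ⟨nodup_toList _, nodup_toList _, ?_⟩
    intro e h1 h2
    exact ((hm2 e).1 h2).2 ((hm1 e).1 h1).2
  have hmem : ∀ e, e ∈ L1 ++ L2 ↔ (¬ e.IsDiag ∧ e ∉ (gr φ).edgeSet) := by
    intro e
    rw [List.mem_append, hm1, hm2]
    simp only [hP1, hP2]
    tauto
  obtain ⟨l, hl⟩ : ∃ l, l = L1 ++ L2 := ⟨_, rfl⟩
  rw [← hl] at hnd
  simp only [← hl] at hmem
  refine ⟨l, hnd, hmem, ?_⟩
  intro c hc i
  have hginj : Function.Injective l.get := List.nodup_iff_injective_get.1 hnd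
  set col := Function.extend l.get c χ with hcol
  have hcolG : ∀ e ∈ (gr φ).edgeSet, col e = χ e := by
    intro e he
    rw [hcol]
    apply Function.extend_apply'
    rintro ⟨j, hj⟩
    have : e ∈ l := hj ▸ List.get_mem l j
    exact ((hmem e).1 this).2 he
  have hG : ∀ e ∈ (gr φ).edgeSet, ∀ e' ∈ (gr φ).edgeSet, col e = col e' → e = e' := by
    intro e he e' he' h
    rw [hcolG e he, hcolG e' he'] at h
    exact hχ h
  have hLinj : ∀ e ∈ l, ∀ e' ∈ l, col e = col e' → e = e' := by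
    intro e he e' he' h
    obtain ⟨j, hj⟩ := List.mem_iff_get.1 he
    obtain ⟨j', hj'⟩ := List.mem_iff_get.1 he'
    rw [← hj, ← hj', hcol, hginj.extend_apply, hginj.extend_apply] at h
    rw [← hj, ← hj', hc h]
  have hiE : l.get i ∈ {e | ∃ j, j ≤ i ∧ l.get j = e} := ⟨i, le_rfl, rfl⟩
  have hil : l.get i ∈ l := List.get_mem l i
  obtain ⟨hdiag, hnG⟩ := (hmem _).1 hil
  by_cases hp : ∃ p, φ (Sum.inr p) ∈ l.get i
  · obtain ⟨p, hp⟩ := hp
    obtain ⟨v, hv⟩ := hp
    have hv2 : l.get i = s(v, φ (Sum.inr p)) := by rw [hv, Sym2.eq_swap]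
    have hne : v ≠ φ (Sum.inr p) := by
      intro h
      apply hdiag
      rw [hv2, h]
      exact Sym2.mk_isDiag_iff.2 rfl
    have hvO : ∀ z, φ z ≠ v := by
      intro z hz
      apply hnG
      rw [hv2]
      exact ⟨hne, Or.inl ⟨⟨z, hz⟩, ⟨_, rfl⟩⟩⟩
    have := phase1 φ hφ v (φ (Sum.inr p)) hvO ⟨p, rfl⟩ col hG
    rw [← hv2] at this
    refine this.mono ?_
    apply Set.union_subset_union_right
    intro e he
    rw [Set.mem_singleton_iff] at he
    rw [he]
    exact hiE
  · -- the second phase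
    obtain ⟨v, v', hvv'⟩ : ∃ v v', l.get i = s(v, v') := by
      induction h : l.get i using Sym2.ind with
      | _ x y => exact ⟨x, y, rfl⟩
    have hne : v ≠ v' := by
      intro h
      apply hdiag
      rw [hvv', h]
      exact Sym2.mk_isDiag_iff.2 rfl
    have hA : ∀ a, φ (Sum.inl a) ≠ v := by
      intro a ha
      apply hnG
      rw [hvv']
      exact ⟨hne, Or.inr (Or.inl ⟨a, ha⟩)⟩
    have hA' : ∀ a, φ (Sum.inl a) ≠ v' := by
      intro a ha
      apply hnG
      rw [hvv']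
      exact ⟨hne, Or.inr (Or.inr ⟨a, ha⟩)⟩
    have hP : ∀ a, φ (Sum.inr a) ≠ v := by
      intro a ha
      exact hp ⟨a, by rw [hvv', ha]; exact Sym2.mem_mk_left _ _⟩
    have hP' : ∀ a, φ (Sum.inr a) ≠ v' := by
      intro a ha
      exact hp ⟨a, by rw [hvv', ha]; exact Sym2.mem_mk_right _ _⟩
    have hvO : ∀ z, φ z ≠ v := by
      rintro (a | p)
      · exact hA a
      · exact hP p
    have hvO' : ∀ z, φ z ≠ v' := by
      rintro (a | p)
      · exact hA' a
      · exact hP' p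
    -- edges of the first phase come before `i`
    have hidx : ¬ (i : ℕ) < L1.length := by
      intro hlt
      have h1 : l.get i = L1[(i : ℕ)] := by
        rw [List.get_eq_getElem]
        simp only [hl]
        exact List.getElem_append_left hlt
      have h2 : l.get i ∈ L1 := by
        rw [h1]
        exact List.getElem_mem hlt
      exact hp ((hm1 _).1 h2).2
    have hbefore : ∀ e, P1 e → ∃ j, j ≤ i ∧ l.get j = e := by
      intro e he
      obtain ⟨j, hj⟩ := List.mem_iff_get.1 ((hm1 e).2 he)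
      have hjl : (j : ℕ) < l.length := by
        rw [hl, List.length_append]
        exact lt_of_lt_of_le j.2 (Nat.le_add_right _ _)
      refine ⟨⟨j, hjl⟩, ?_, ?_⟩
      · rw [Fin.le_def]
        have := j.2
        show (j : ℕ) ≤ (i : ℕ)
        omega
      · rw [List.get_eq_getElem, ← hj, List.get_eq_getElem]
        simp only [hl]
        exact List.getElem_append_left j.2
    have hOP : ∀ u, (∀ z, φ z ≠ u) → ∀ p, P1 s(u, φ (Sum.inr p)) := by
      intro u hu p
      refine ⟨⟨?_, ?_⟩, p, Sym2.mem_mk_right _ _⟩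
      · rw [Sym2.mk_isDiag_iff]
        exact fun h => hu _ h.symm
      · rintro ⟨_, ⟨⟨z, hz⟩, _⟩ | ⟨a, ha⟩ | ⟨a, ha⟩⟩
        · exact hu z hz
        · exact hu _ ha
        · exact absurd (hφ ha) (by simp)
    set T : Finset (Sym2 (Fin n)) := univ.filter (fun e => e = s(v, v') ∨
      (∃ p, e = s(v, φ (Sum.inr p))) ∨ ∃ p, e = s(v', φ (Sum.inr p))) with hTdef
    have hT : ∀ e, e ∈ T ↔ e = s(v, v') ∨ (∃ p, e = s(v, φ (Sum.inr p))) ∨
      ∃ p, e = s(v', φ (Sum.inr p)) := by
      intro e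
      simp [hTdef]
    have hTE : ∀ e ∈ T, ∃ j, j ≤ i ∧ l.get j = e := by
      intro e he
      rcases (hT e).1 he with h | ⟨p, h⟩ | ⟨p, h⟩
      · exact ⟨i, le_rfl, by rw [h, hvv']⟩
      · rw [h]
        exact hbefore _ (hOP v hvO p)
      · rw [h]
        exact hbefore _ (hOP v' hvO' p)
    have hTl : ∀ e ∈ T, e ∈ l := by
      intro e he
      obtain ⟨j, _, hj⟩ := hTE e he
      rw [← hj]
      exact List.get_mem l j
    have := phase2 φ hφ hM v v' hne hvO hvO' col hG T hT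
      (fun e he e' he' h => hLinj e (hTl e he) e' (hTl e' he') h)
    rw [← hvv'] at this
    refine this.mono ?_
    apply Set.union_subset_union_right
    intro e he
    exact hTE e he

/-- The complete graph is (vacuously) weakly saturated. -/
theorem weak_top (n r : ℕ) :
    WeaklySaturated r (⊤ : SimpleGraph (Fin n)) (fun _ => 0) := by
  refine ⟨[], List.nodup_nil, ?_, ?_⟩
  · intro e
    induction e using Sym2.ind with
    | _ x y =>
      simp
  · intro c _ i
    exact i.elim0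

theorem exists_weak (r : ℕ) (hr : 3 ≤ r) : ∃ C : ℕ, ∀ n : ℕ,
    ∃ (G : SimpleGraph (Fin n)) (χ : Sym2 (Fin n) → ℕ),
      WeaklySaturated r G χ ∧ G.edgeSet.ncard ≤ (r - 1) * n + C := by
  obtain ⟨s, rfl⟩ : ∃ s, r = s + 2 := ⟨r - 2, by omega⟩
  obtain ⟨M, hM, hMp⟩ := Nat.exists_infinite_primes (2 * s + 2)
  have : Fact M.Prime := ⟨hMp⟩
  have : NeZero M := ⟨hMp.ne_zero⟩
  refine ⟨Fintype.card (Idx s M) ^ 2, fun n => ?_⟩
  by_cases hn : Fintype.card (Idx s M) ≤ n
  · obtain ⟨φ⟩ : Nonempty (Idx s M ↪ Fin n) := by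
      apply Function.Embedding.nonempty_of_card_le
      simpa using hn
    obtain ⟨χ, hχ⟩ := weak_large hM φ φ.injective
    refine ⟨gr φ, χ, hχ, ?_⟩
    have := card_edges (φ : Idx s M → Fin n)
    rw [Fintype.card_fin] at this
    exact this
  · push Not at hn
    refine ⟨⊤, fun _ => 0, weak_top n _, ?_⟩
    have h1 : (⊤ : SimpleGraph (Fin n)).edgeSet.ncard ≤ n ^ 2 := by
      classical
      have : (⊤ : SimpleGraph (Fin n)).edgeSet ⊆
          ((univ.image (fun q : Fin n × Fin n => s(q.1, q.2)) : Finset (Sym2 (Fin n))) :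
            Set (Sym2 (Fin n))) := by
        intro e
        induction e using Sym2.ind with
        | _ x y =>
          intro _
          rw [mem_coe, mem_image]
          exact ⟨(x, y), mem_univ _, rfl⟩
      refine (Set.ncard_le_ncard this (Finset.finite_toSet _)).trans ?_
      rw [Set.ncard_coe_finset]
      refine card_image_le.trans ?_
      rw [card_univ, Fintype.card_prod, Fintype.card_fin, sq]
    have h2 : n ^ 2 ≤ Fintype.card (Idx s M) ^ 2 := Nat.pow_le_pow_left hn.le 2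
    omega

/-- For every `r ≥ 3` there is a constant `C` such that for every `n` there is a weakly
`K_r`-rainbow saturated edge-coloured subgraph of `K_n` with at most `(r - 1) n + C` edges; so
`rwsat(n, K_r) ≤ (r - 1) n + C`, and in particular `rwsat(n, K_r) ≤ r n + C`. -/
theorem result : ∀ r : ℕ, 3 ≤ r → ∃ C : ℕ, ∀ n : ℕ,
    (∃ (G : SimpleGraph (Fin n)) (χ : Sym2 (Fin n) → ℕ),
      WeaklySaturated r G χ ∧ G.edgeSet.ncard ≤ (r - 1) * n + C) ∧
    rwsat n r ≤ (r - 1) * n + C ∧ rwsat n r ≤ r * n + C := by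
  intro r hr
  obtain ⟨C, hC⟩ := exists_weak r hr
  refine ⟨C, fun n => ?_⟩
  obtain ⟨G, χ, hG, hcard⟩ := hC n
  have h1 : rwsat n r ≤ (r - 1) * n + C := le_trans (Nat.sInf_le ⟨G, χ, hG, rfl⟩) hcard
  have h2 : (r - 1) * n ≤ r * n := Nat.mul_le_mul_right n (Nat.sub_le r 1)
  exact ⟨⟨G, χ, hG, hcard⟩, h1, by omega⟩

end Pool.Agent.Results.MP_d10f6f_co.LinearUpper
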